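import Pool.Agent.W823.QT.Stm

/-!
# Project QT: the law of a walk on a grid (`GRIDW_T`)
-/

set_option autoImplicit false

namespace Pool.Agent.W917.QTGRIDW

open MeasureTheory ProbabilityTheory Filter Topology Pool.Agent.W845.Traps Pool.Agent.W823.QT
open scoped ENNReal NNReal

universe u

/-- a finite sequence extended by zero -/
def ext0 {d : ℕ} (m : ℕ) (b : Finset.range m → Fin d → ℤ) (i : ℕ) : Fin d → ℤ :=
  if h : i ∈ Finset.range m then b ⟨i, h⟩ else 0

theorem main : GRIDW_T.{u} := by
  intro d Ω _ P _ κ X hX h m F hF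
  set Z : ℕ → Ω → Fin d → ℤ := fun k ω => X ((k + 1 : ℕ) * h) ω - X (k * h) ω with hZ
  have hmono : Monotone fun k : ℕ => (k : ℝ≥0) * h := by
    intro a b hab
    simp only
    gcongr
  have hZm : ∀ k, Measurable (Z k) := fun k => (hX.meas _).sub (hX.meas _)
  have hZi : iIndepFun Z P := hX.indep.nat hmono
  have hlaw : P.map (fun ω i => Z i ω) = iid (stepLaw d κ h) := by
    rw [(iIndepFun_iff_map_fun_eq_infinitePi_map hZm).1 hZi]
    unfold iid
    congr 1
    funext k
    simp only [hZ]
    rw [hX.law _ _ (hmono (Nat.le_succ k))]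
    congr 1
    simp only
    rw [← tsub_mul]
    have : ((k + 1 : ℕ) : ℝ≥0) - (k : ℝ≥0) = 1 := by
      push_cast
      exact add_tsub_cancel_left _ _
    rw [Nat.succ_eq_add_one, this, one_mul]
  have hmeas : Measurable fun a : ℕ → Fin d → ℤ => F (pos a) := by
    have e : (fun a : ℕ → Fin d → ℤ => F (pos a)) =
        (fun b : Finset.range m → Fin d → ℤ => F (pos (ext0 m b))) ∘ (Finset.range m).restrict := by
      funext a
      refine hF _ _ fun k hk => ?_
      unfold pos
      refine Finset.sum_congr rfl fun i hi => ?_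
      have hi' : i ∈ Finset.range m :=
        Finset.mem_range.2 (lt_of_lt_of_le (Finset.mem_range.1 hi) hk)
      unfold ext0
      rw [dif_pos hi']
      rfl
    rw [e]
    exact (measurable_of_countable _).comp (Finset.measurable_restrict _)
  rw [← hlaw, lintegral_map hmeas (measurable_pi_lambda _ hZm)]
  refine lintegral_congr_ae ?_
  filter_upwards [hX.zero] with ω hω
  refine hF _ _ fun k hk => ?_
  unfold pos
  simp only [hZ]
  rw [Finset.sum_range_sub (fun i : ℕ => X (i * h) ω)]
  simp [hω]

end Pool.Agent.W917.QTGRIDW
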