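import Pool.Agent.Results.MP_e71ceb_lc.SuperatomicImpliesCWG

/-!
# The algebra generated by the sets of up-sets containing a point is the poset algebra

The concrete algebra (a subalgebra of the power set of the set of up-sets of `P`) has the universal
property of the poset algebra; hence it is canonically well-generated if it is superatomic, by the
starting result `MP_e71ceb_lc.SuperatomicImpliesCWG`.
-/

open Set

universe u

namespace Pool.Agent.W917.WG

open Pool.Agent.Results.MP_e71ceb_lc.SuperatomicImpliesCWG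

/-- The generator. -/
def gen {P : Type u} [PartialOrder P] (p : P) : Set (UpperSet P) := {F | p ∈ F}

/-- The concrete poset algebra. -/
abbrev Alg (P : Type u) [PartialOrder P] : BooleanSubalgebra (Set (UpperSet P)) :=
  BooleanSubalgebra.closure (Set.range (gen : P → Set (UpperSet P)))

theorem gen_mem {P : Type u} [PartialOrder P] (p : P) : gen p ∈ Alg P :=
  BooleanSubalgebra.subset_closure ⟨p, rfl⟩

theorem isPosetAlgebra (P : Type u) [PartialOrder P] :
    IsPosetAlgebra (B := Alg P) (fun p : P => ⟨gen p, gen_mem p⟩) := by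
  classical
  let N : P → Set (UpperSet P) := gen
  let C : BooleanSubalgebra (Set (UpperSet P)) := Alg P
  have hN : ∀ p, N p ∈ C := gen_mem
  refine ⟨?_, ?_⟩
  · intro p q hpq
    change N p ≤ N q
    intro F hF
    exact F.upper hpq hF
  · intro A _ f hf
    -- the dual space of `A`
    let X : Type u := BoundedLatticeHom A Prop
    let e : BoundedLatticeHom A (Set X) :=
      { toFun := fun a => {v | v a}
        map_sup' := fun a b => by ext v; change v (a ⊔ b) ↔ v a ∨ v b; rw [map_sup]; exact Iff.rfl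
        map_inf' := fun a b => by ext v; change v (a ⊓ b) ↔ v a ∧ v b; rw [map_inf]; exact Iff.rfl
        map_top' := by ext v; change v ⊤ ↔ True; rw [map_top]; exact Iff.rfl
        map_bot' := by ext v; change v ⊥ ↔ False; rw [map_bot]; exact Iff.rfl }
    have he : Function.Injective e := by
      have key : ∀ a b : A, e a = e b → a ≤ b := by
        intro a b hab
        by_contra hcon
        have h1 : a \ b ∉ ({⊥} : Set A) := by simpa [sdiff_eq_bot_iff] using hcon
        obtain ⟨v, h2, -⟩ := exists_hom _ isId_bot _ h1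
        rw [_root_.sdiff_eq, map_inf, map_compl'] at h2
        have h3 : v ∈ e a := h2.1
        rw [hab] at h3
        exact h2.2 h3
      intro a b hab
      exact le_antisymm (key a b hab) (key b a hab.symm)
    let g : X → UpperSet P := fun v => ⟨{p | v (f p)}, fun p q hpq hp => by
      have h3 : v (f p) ≤ v (f q) := OrderHomClass.mono v (hf hpq)
      exact h3 hp⟩
    let G : BoundedLatticeHom (Set (UpperSet P)) (Set X) :=
      { toFun := fun S => g ⁻¹' S
        map_sup' := fun _ _ => rfl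
        map_inf' := fun _ _ => rfl
        map_top' := rfl
        map_bot' := rfl }
    have hG : C ≤ BooleanSubalgebra.comap G (BooleanSubalgebra.map e ⊤) := by
      rw [BooleanSubalgebra.closure_le]
      rintro _ ⟨p, rfl⟩
      exact ⟨f p, trivial, rfl⟩
    have hex : ∀ c : C, ∃ a : A, e a = G c := by
      intro c
      obtain ⟨a, -, ha⟩ := hG c.2
      exact ⟨a, ha⟩
    choose φ hφ using hex
    refine ⟨{ toFun := φ
              map_sup' := fun c d => he (by
                rw [map_sup, hφ, hφ, hφ]; rfl)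
              map_inf' := fun c d => he (by
                rw [map_inf, hφ, hφ, hφ]; rfl)
              map_top' := he (by rw [map_top, hφ]; rfl)
              map_bot' := he (by rw [map_bot, hφ]; rfl) }, ?_, ?_⟩
    · intro p
      exact he (by
        change e (φ _) = e (f p)
        rw [hφ]; rfl)
    · intro ψ hψ
      ext ⟨c, hc⟩
      change ψ ⟨c, hc⟩ = φ ⟨c, hc⟩
      have key : ∀ θ θ' : BoundedLatticeHom C A, (∀ p, θ ⟨N p, hN p⟩ = θ' ⟨N p, hN p⟩) →
          ∀ c (hc : c ∈ C), θ ⟨c, hc⟩ = θ' ⟨c, hc⟩ := by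
        intro θ θ' hθ c hc
        induction hc using BooleanSubalgebra.closure_bot_sup_induction with
        | mem c hc =>
          obtain ⟨p, rfl⟩ := hc
          exact hθ p
        | bot =>
          have h1 : θ (⊥ : C) = θ' (⊥ : C) := by rw [map_bot, map_bot]
          exact h1
        | sup c hc d hd ih1 ih2 =>
          have h1 : θ ((⟨c, hc⟩ : C) ⊔ ⟨d, hd⟩) = θ' ((⟨c, hc⟩ : C) ⊔ ⟨d, hd⟩) := by
            rw [map_sup, map_sup, ih1, ih2]
          exact h1
        | compl c hc ih =>
          have h1 : θ ((⟨c, hc⟩ : C)ᶜ) = θ' ((⟨c, hc⟩ : C)ᶜ) := by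
            rw [map_compl', map_compl', ih]
          exact h1
      let Φ : BoundedLatticeHom C A :=
        { toFun := φ
          map_sup' := fun c d => he (by
            rw [map_sup, hφ, hφ, hφ]; rfl)
          map_inf' := fun c d => he (by
            rw [map_inf, hφ, hφ, hφ]; rfl)
          map_top' := he (by rw [map_top, hφ]; rfl)
          map_bot' := he (by rw [map_bot, hφ]; rfl) }
      refine key ψ Φ (fun p => ?_) c hc
      refine (hψ p).trans ?_
      exact he (by
        change e (f p) = e (φ _)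
        rw [hφ]; rfl)

/-- A subalgebra of a power set all of whose quotients by ideals are atomic (in the concrete form
of the frozen statement) is superatomic. -/
theorem superatomic_of {X : Type u} (S : BooleanSubalgebra (Set X))
    (h : ∀ I : Set (Set X), I ⊆ (S : Set (Set X)) → ∅ ∈ I →
      (∀ a ∈ I, ∀ b ∈ S, b ⊆ a → b ∈ I) → (∀ a ∈ I, ∀ b ∈ I, a ∪ b ∈ I) →
      ∀ b ∈ S, b ∉ I → ∃ a ∈ S, a ⊆ b ∧ a ∉ I ∧ ∀ c ∈ S, c ⊆ a → c ∈ I ∨ a \ c ∈ I) :
    Superatomic S := by
  classical
  intro C _ f hf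
  -- the kernel
  let I : Set (Set X) := {a | ∃ h : a ∈ S, f ⟨a, h⟩ = ⊥}
  have hmemI : ∀ a (ha : a ∈ S), a ∈ I ↔ f ⟨a, ha⟩ = ⊥ := fun a ha =>
    ⟨fun ⟨_, h2⟩ => h2, fun h2 => ⟨ha, h2⟩⟩
  have key := h I (fun a ha => ha.1) ?_ ?_ ?_
  · refine ⟨fun d => ?_⟩
    by_cases hd : d = ⊥
    · exact Or.inl hd
    · right
      obtain ⟨⟨b, hb⟩, rfl⟩ := hf d
      have hbI : b ∉ I := fun h1 => hd ((hmemI b hb).1 h1)
      obtain ⟨a, ha, hab, haI, hat⟩ := key b hb hbI
      refine ⟨f ⟨a, ha⟩, ⟨?_, ?_⟩, ?_⟩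
      · exact fun h1 => haI ((hmemI a ha).2 h1)
      · intro c hc
        obtain ⟨⟨c', hc'⟩, rfl⟩ := hf c
        -- replace `c'` by `c' ∩ a`
        have hca : c' ∩ a ∈ S := BooleanSubalgebra.inf_mem hc' ha
        have h1 : f ⟨c' ∩ a, hca⟩ = f ⟨c', hc'⟩ := by
          have h2 : (⟨c' ∩ a, hca⟩ : S) = (⟨c', hc'⟩ : S) ⊓ ⟨a, ha⟩ := rfl
          rw [h2, map_inf]
          exact inf_eq_left.2 hc.le
        rcases hat _ hca Set.inter_subset_right with h3 | h3
        · rw [← h1]
          exact (hmemI _ hca).1 h3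
        · exfalso
          have hd' : a \ (c' ∩ a) ∈ S := BooleanSubalgebra.sdiff_mem ha hca
          have h4 := (hmemI _ hd').1 h3
          have h5 : (⟨a \ (c' ∩ a), hd'⟩ : S) = (⟨a, ha⟩ : S) \ ⟨c' ∩ a, hca⟩ := rfl
          rw [h5, map_sdiff', h1, sdiff_eq_bot_iff] at h4
          exact not_le_of_gt hc h4
      · exact OrderHomClass.mono f (show (⟨a, ha⟩ : S) ≤ ⟨b, hb⟩ from hab)
  · exact ⟨BooleanSubalgebra.bot_mem, map_bot f⟩
  · rintro a ⟨ha, h1⟩ b hb hba
    refine ⟨hb, le_bot_iff.1 ?_⟩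
    rw [← h1]
    exact OrderHomClass.mono f (show (⟨b, hb⟩ : S) ≤ ⟨a, ha⟩ from hba)
  · rintro a ⟨ha, h1⟩ b ⟨hb, h2⟩
    refine ⟨BooleanSubalgebra.sup_mem ha hb, ?_⟩
    have h3 : (⟨a ∪ b, BooleanSubalgebra.sup_mem ha hb⟩ : S) = (⟨a, ha⟩ : S) ⊔ ⟨b, hb⟩ := rfl
    rw [h3, map_sup, h1, h2, sup_idem]

/-- Canonically well-generated subalgebras of a power set are well-generated, in the concrete form
of the frozen statement. -/
theorem wellgenerated_of {X : Type u} (S : BooleanSubalgebra (Set X))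
    (h : CanonicallyWellGenerated S) :
    ∃ G : Set (Set X), G ⊆ (S : Set (Set X)) ∧
      (∀ x ∈ G, ∀ y ∈ G, x ∪ y ∈ G ∧ x ∩ y ∈ G) ∧
      (¬ ∃ f : ℕ → Set X, ∀ n, f n ∈ G ∧ f (n + 1) ⊂ f n) ∧
      BooleanSubalgebra.closure G = S := by
  obtain ⟨H, -, hgen, hwf⟩ := h
  set K : Set S := ⋃ α ∈ Set.Iic (rk (⊤ : S)), H α with hK
  let G' : Set S := latticeClosure K
  refine ⟨(fun a : S => (a : Set X)) '' G', ?_, ?_, ?_, ?_⟩
  · rintro _ ⟨a, -, rfl⟩
    exact a.2
  · rintro _ ⟨a, ha, rfl⟩ _ ⟨b, hb, rfl⟩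
    have hsub : IsSublattice G' := isSublattice_latticeClosure
    exact ⟨⟨a ⊔ b, hsub.supClosed ha hb, rfl⟩, ⟨a ⊓ b, hsub.infClosed ha hb, rfl⟩⟩
  · rintro ⟨f, hf⟩
    have h1 : ∀ n, ∃ a : S, a ∈ G' ∧ (a : Set X) = f n := fun n => by
      obtain ⟨a, ha, h2⟩ := (hf n).1
      exact ⟨a, ha, h2⟩
    choose g hg1 hg2 using h1
    refine hwf g hg1 (strictAnti_nat_of_succ_lt fun n => ?_)
    have h3 := (hf n).2
    rw [← hg2, ← hg2] at h3
    exact h3
  · apply le_antisymm
    · rw [BooleanSubalgebra.closure_le]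
      rintro _ ⟨a, -, rfl⟩
      exact a.2
    · intro a ha
      have h1 : (⟨a, ha⟩ : S) ∈ BooleanSubalgebra.closure K := by rw [hgen]; trivial
      have h2 : BooleanSubalgebra.closure K ≤
          BooleanSubalgebra.comap S.subtype
            (BooleanSubalgebra.closure ((fun a : S => (a : Set X)) '' G')) := by
        rw [BooleanSubalgebra.closure_le]
        intro b hb
        exact BooleanSubalgebra.subset_closure ⟨b, subset_latticeClosure hb, rfl⟩
      exact h2 h1

end Pool.Agent.W917.WG
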