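import Pool.Agent.W988.RA.Defs

set_option autoImplicit false

namespace Pool.Agent.W917.RA_LA

open Pool.Agent.W988.RA

theorem key (n : ℕ) (u : EuclideanSpace ℝ (Fin n) ≃ₗ[ℝ] EuclideanSpace ℝ (Fin n))
    (e η : OrthonormalBasis (Fin n) ℝ (EuclideanSpace ℝ (Fin n))) (k l : Fin n) :
    ∑ j, inner ℝ (η k) (u.symm (EuclideanSpace.single j (1 : ℝ))) * (u (e l)) j =
      inner ℝ (η k) (e l) := by
  have h : (u (e l)) = ∑ j, (u (e l)) j • EuclideanSpace.single j (1 : ℝ) := by
    ext i
    simp [Finset.sum_apply, Pi.single_apply]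
  have h2 : e l = ∑ j, (u (e l)) j • u.symm (EuclideanSpace.single j (1 : ℝ)) := by
    have h3 : e l = u.symm (u (e l)) := (u.symm_apply_apply _).symm
    conv_lhs => rw [h3, h]
    rw [map_sum]
    simp only [map_smul]
  conv_rhs => rw [h2, inner_sum]
  refine Finset.sum_congr rfl fun j _ => ?_
  rw [inner_smul_right, mul_comm]

theorem result : S_LA := by
  intro n u e η
  have h1 : (Matrix.of fun k j : Fin n => inner ℝ (η k) (u.symm (EuclideanSpace.single j (1 : ℝ)))) *
      (Matrix.of fun k j : Fin n => (u (e j)) k) = η.toBasis.toMatrix e := by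
    ext k l
    rw [Matrix.mul_apply]
    simp only [Matrix.of_apply]
    rw [key n u e η k l, Module.Basis.toMatrix_apply, OrthonormalBasis.coe_toBasis_repr_apply,
      OrthonormalBasis.repr_apply_apply]
  have h2 : |(η.toBasis.toMatrix e).det| = 1 := by
    have := η.det_to_matrix_orthonormalBasis_real e
    rw [Module.Basis.det_apply] at this
    rcases this with h | h <;> rw [h] <;> simp
  rw [← h1, Matrix.det_mul, abs_mul] at h2
  exact h2

end Pool.Agent.W917.RA_LA
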